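import Pool.Agent.W91.BH.Stm

set_option autoImplicit false

open MeasureTheory
open scoped ENNReal ContDiff

namespace Pool.Agent.W5.BH

open Pool.Agent.W91.BH

noncomputable section

/-- An integer vector as a point of the space. -/
def ivec {n : ℕ} (t : Fin n → ℤ) : E n := WithLp.toLp 2 (fun i => (t i : ℝ))

/-- The box `{1, ..., L} ^ n`. -/
def box (n L : ℕ) : Finset (Fin n → ℤ) := Fintype.piFinset (fun _ => Finset.Icc (1 : ℤ) (L : ℤ))

lemma box_card (n L : ℕ) : (box n L).card = L ^ n := by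
  simp [box, Fintype.card_piFinset]

/-- Averages of translates. -/
def Sop {n : ℕ} (L : ℕ) (e : Fin n → ℤ) (f : E n → ℝ) : E n → ℝ :=
  fun x => ((L : ℝ) ^ n)⁻¹ * ∑ t ∈ box n L, f (x - ivec (fun i => e i * t i))

/-- The iterated differences. -/
def Bs {n : ℕ} (L : ℕ) (e : Fin n → ℤ) (ψ : E n → ℝ) : ℕ → E n → ℝ
  | 0 => ψ
  | m + 1 => fun x => Bs L e ψ m x - Sop L e (Bs L e ψ m) x

lemma Sop_smooth {n : ℕ} (L : ℕ) (e : Fin n → ℤ) (f : E n → ℝ) (hf : ContDiff ℝ ∞ f) :
    ContDiff ℝ ∞ (Sop L e f) := by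
  unfold Sop
  exact contDiff_const.mul (ContDiff.sum fun t _ => hf.comp (contDiff_id.sub contDiff_const))

lemma Bs_smooth {n : ℕ} (L : ℕ) (e : Fin n → ℤ) (ψ : E n → ℝ) (hf : ContDiff ℝ ∞ ψ) (m : ℕ) :
    ContDiff ℝ ∞ (Bs L e ψ m) := by
  induction m with
  | zero => exact hf
  | succ m ih => exact ih.sub (Sop_smooth L e _ ih)

lemma transl_cs {n : ℕ} (f : E n → ℝ) (hf : HasCompactSupport f) (h : E n) :
    HasCompactSupport (fun x => f (x - h)) :=
  hf.comp_homeomorph (Homeomorph.subRight h)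

lemma sum_cs {n : ℕ} {ι : Type} (s : Finset ι) (f : ι → E n → ℝ)
    (hf : ∀ i, HasCompactSupport (f i)) : HasCompactSupport (fun x => ∑ i ∈ s, f i x) := by
  classical
  induction s using Finset.induction_on with
  | empty =>
    have : (fun x : E n => ∑ i ∈ (∅ : Finset ι), f i x) = 0 := by
      funext x; simp
    rw [this]
    exact HasCompactSupport.zero
  | insert a s ha ih =>
    have : (fun x : E n => ∑ i ∈ insert a s, f i x) = f a + (fun x => ∑ i ∈ s, f i x) := by
      funext x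
      simp [Finset.sum_insert ha]
    rw [this]
    exact (hf a).add ih

lemma Sop_cs {n : ℕ} (L : ℕ) (e : Fin n → ℤ) (f : E n → ℝ) (hf : HasCompactSupport f) :
    HasCompactSupport (Sop L e f) := by
  have h := sum_cs (box n L) (fun t x => f (x - ivec (fun i => e i * t i)))
    (fun t => transl_cs f hf _)
  exact h.mul_left (f := fun _ => ((L : ℝ) ^ n)⁻¹)

lemma Bs_cs {n : ℕ} (L : ℕ) (e : Fin n → ℤ) (ψ : E n → ℝ) (hf : HasCompactSupport ψ) (m : ℕ) :
    HasCompactSupport (Bs L e ψ m) := by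
  induction m with
  | zero => exact hf
  | succ m ih => exact ih.sub (Sop_cs L e _ ih)

lemma cs_of_box {n : ℕ} (f : E n → ℝ) (h : ∀ x, f x ≠ 0 → ∀ i, -1 < x i ∧ x i < 2) :
    HasCompactSupport f := by
  have hK : IsCompact ((WithLp.toLp 2 : (Fin n → ℝ) → E n) ''
      (Set.univ.pi fun _ => Set.Icc (-1 : ℝ) 2)) :=
    (isCompact_univ_pi fun _ => isCompact_Icc).image (PiLp.continuous_toLp 2 _)
  refine HasCompactSupport.of_support_subset_isCompact hK ?_
  intro x hx
  refine ⟨fun i => x i, ?_, ?_⟩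
  · intro i _
    exact ⟨(h x hx i).1.le, (h x hx i).2.le⟩
  · ext i
    rfl

lemma mom_int {n : ℕ} (f : E n → ℝ) (hc : Continuous f) (hs : HasCompactSupport f)
    (β : Fin n → ℕ) : Integrable (fun x : E n => (∏ i, x i ^ β i) * f x) := by
  apply Continuous.integrable_of_hasCompactSupport
  · refine Continuous.mul ?_ hc
    refine continuous_finset_prod _ fun i _ => ?_
    exact (by fun_prop : Continuous fun x : E n => x i).pow _
  · exact hs.mul_left

lemma mom_step (hM : S_MOM) {n : ℕ} (L : ℕ) (hL : 0 < L) (e : Fin n → ℤ) (f : E n → ℝ) (m : ℕ)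
    (hc : Continuous f) (hs : HasCompactSupport f)
    (hm : ∀ β : Fin n → ℕ, ∑ i, β i < m → ∫ x, (∏ i, x i ^ β i) * f x = 0)
    (β : Fin n → ℕ) (hβ : ∑ i, β i < m + 1) :
    ∫ x, (∏ i, x i ^ β i) * (f x - Sop L e f x) = 0 := by
  have h1 : ∀ x : E n, (∏ i, x i ^ β i) * (f x - Sop L e f x) = (∏ i, x i ^ β i) * f x -
      ((L : ℝ) ^ n)⁻¹ * ∑ t ∈ box n L, (∏ i, x i ^ β i) * f (x - ivec (fun i => e i * t i)) := by
    intro x
    unfold Sop
    rw [mul_sub, ← Finset.mul_sum]
    ring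
  have hi : ∀ t ∈ box n L, Integrable
      (fun x : E n => (∏ i, x i ^ β i) * f (x - ivec (fun i => e i * t i))) := by
    intro t _
    exact mom_int _ (hc.comp (continuous_id.sub continuous_const)) (transl_cs f hs _) β
  simp_rw [h1]
  rw [integral_sub (mom_int f hc hs β) ((integrable_finset_sum _ hi).const_mul _),
    integral_const_mul, integral_finset_sum _ hi]
  have h2 : ∀ t ∈ box n L, ∫ x, (∏ i, x i ^ β i) * f (x - ivec (fun i => e i * t i)) =
      ∫ x, (∏ i, x i ^ β i) * f x := by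
    intro t _
    exact hM n m f hc hs hm β _ (by omega)
  rw [Finset.sum_congr rfl h2, Finset.sum_const, box_card, nsmul_eq_mul]
  push_cast
  have : ((L : ℝ) ^ n) ≠ 0 := by positivity
  field_simp
  ring

lemma Bs_mom (hM : S_MOM) {n : ℕ} (L : ℕ) (hL : 0 < L) (e : Fin n → ℤ) (ψ : E n → ℝ)
    (hc : ContDiff ℝ ∞ ψ) (hs : HasCompactSupport ψ) (m : ℕ) :
    ∀ β : Fin n → ℕ, ∑ i, β i < m → ∫ x, (∏ i, x i ^ β i) * Bs L e ψ m x = 0 := by
  induction m with
  | zero => intro β hβ; omega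
  | succ m ih =>
    intro β hβ
    exact mom_step hM L hL e _ m (Bs_smooth L e ψ hc m).continuous (Bs_cs L e ψ hs m) ih β hβ

/-- The sums over integer translates are at most `C`. -/
def Nb {n : ℕ} (f : E n → ℝ) (C : ℝ) : Prop :=
  ∀ (x : E n) (T : Finset (Fin n → ℤ)), ∑ t ∈ T, |f (x - ivec t)| ≤ C

lemma Nb_psi {n : ℕ} (ψ : E n → ℝ) (h0 : ∀ x, 0 ≤ ψ x) (h1 : ∀ x, ψ x ≤ 1)
    (hs : ∀ x, ψ x ≠ 0 → ∀ i, -1 < x i ∧ x i < 2) : Nb ψ (3 ^ n) := by
  classical
  intro x T
  have hsub : ∑ t ∈ T, |ψ (x - ivec t)| ≤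
      ∑ t ∈ Fintype.piFinset (fun i => Finset.Icc (⌊x i⌋ - 1) (⌊x i⌋ + 1)), (1 : ℝ) := by
    calc ∑ t ∈ T, |ψ (x - ivec t)| = ∑ t ∈ T.filter (fun t => ψ (x - ivec t) ≠ 0),
          |ψ (x - ivec t)| := by
            rw [Finset.sum_filter_of_ne]
            intro t _ h hz
            exact h (by rw [hz]; simp)
      _ ≤ ∑ t ∈ T.filter (fun t => ψ (x - ivec t) ≠ 0), (1 : ℝ) := by
            refine Finset.sum_le_sum fun t _ => ?_
            rw [abs_of_nonneg (h0 _)]
            exact h1 _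
      _ ≤ _ := by
            refine Finset.sum_le_sum_of_subset_of_nonneg ?_ (fun _ _ _ => zero_le_one)
            intro t ht
            rw [Finset.mem_filter] at ht
            rw [Fintype.mem_piFinset]
            intro i
            have h := hs _ ht.2 i
            have h' : (x - ivec t) i = x i - (t i : ℝ) := rfl
            rw [h'] at h
            rw [Finset.mem_Icc]
            have f1 := Int.floor_le (x i)
            have f2 := Int.lt_floor_add_one (x i)
            constructor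
            · have : ((⌊x i⌋ - 2 : ℤ) : ℝ) < (t i : ℝ) := by push_cast; linarith [h.2]
              have := Int.cast_lt.mp this
              omega
            · have : (t i : ℝ) < ((⌊x i⌋ + 2 : ℤ) : ℝ) := by push_cast; linarith [h.1]
              have := Int.cast_lt.mp this
              omega
  refine hsub.trans ?_
  rw [Finset.sum_const, Fintype.card_piFinset]
  have : ∀ i : Fin n, (Finset.Icc (⌊x i⌋ - 1) (⌊x i⌋ + 1)).card = 3 := by
    intro i
    rw [Int.card_Icc]
    omega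
  simp only [this]
  simp

lemma Nb_sub {n : ℕ} (f g : E n → ℝ) (C D : ℝ) (hf : Nb f C) (hg : Nb g D) :
    Nb (fun x => f x - g x) (C + D) := by
  intro x T
  calc ∑ t ∈ T, |f (x - ivec t) - g (x - ivec t)| ≤
      ∑ t ∈ T, (|f (x - ivec t)| + |g (x - ivec t)|) := Finset.sum_le_sum fun t _ => abs_sub _ _
    _ = _ := Finset.sum_add_distrib
    _ ≤ C + D := add_le_add (hf x T) (hg x T)

lemma Nb_Sop {n : ℕ} (L : ℕ) (hL : 0 < L) (e : Fin n → ℤ) (f : E n → ℝ) (C : ℝ)
    (hf : Nb f C) : Nb (Sop L e f) C := by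
  intro x T
  have hLp : (0 : ℝ) < (L : ℝ) ^ n := by positivity
  calc ∑ t ∈ T, |Sop L e f (x - ivec t)|
      ≤ ∑ t ∈ T, ((L : ℝ) ^ n)⁻¹ *
          ∑ s ∈ box n L, |f (x - ivec t - ivec (fun i => e i * s i))| := by
        refine Finset.sum_le_sum fun t _ => ?_
        unfold Sop
        rw [abs_mul, abs_of_pos (inv_pos.mpr hLp)]
        exact mul_le_mul_of_nonneg_left (Finset.abs_sum_le_sum_abs _ _) (inv_pos.mpr hLp).le
    _ = ((L : ℝ) ^ n)⁻¹ * ∑ s ∈ box n L,
          ∑ t ∈ T, |f (x - ivec (fun i => e i * s i) - ivec t)| := by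
        rw [← Finset.mul_sum, Finset.sum_comm]
        congr 1
        refine Finset.sum_congr rfl fun s _ => Finset.sum_congr rfl fun t _ => ?_
        rw [sub_right_comm]
    _ ≤ ((L : ℝ) ^ n)⁻¹ * ∑ s ∈ box n L, C := by
        refine mul_le_mul_of_nonneg_left (Finset.sum_le_sum fun s _ => hf _ T)
          (inv_pos.mpr hLp).le
    _ = C := by
        rw [Finset.sum_const, box_card, nsmul_eq_mul]
        push_cast
        field_simp

lemma Nb_Bs {n : ℕ} (L : ℕ) (hL : 0 < L) (e : Fin n → ℤ) (ψ : E n → ℝ) (C : ℝ)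
    (hf : Nb ψ C) (m : ℕ) : Nb (Bs L e ψ m) (2 ^ m * C) := by
  induction m with
  | zero => simpa [Bs] using hf
  | succ m ih =>
    have := Nb_sub _ _ _ _ ih (Nb_Sop L hL e _ _ ih)
    have h2 : (2 : ℝ) ^ (m + 1) * C = 2 ^ m * C + 2 ^ m * C := by ring
    rw [h2]
    exact this

lemma Sop_small {n : ℕ} (L : ℕ) (hL : 0 < L) (e : Fin n → ℤ) (he : ∀ i, e i = 1 ∨ e i = -1)
    (f : E n → ℝ) (C : ℝ) (hf : Nb f C) (x : E n) : |Sop L e f x| ≤ ((L : ℝ) ^ n)⁻¹ * C := by
  classical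
  have hLp : (0 : ℝ) < (L : ℝ) ^ n := by positivity
  unfold Sop
  rw [abs_mul, abs_of_pos (inv_pos.mpr hLp)]
  refine mul_le_mul_of_nonneg_left ?_ (inv_pos.mpr hLp).le
  refine (Finset.abs_sum_le_sum_abs _ _).trans ?_
  have hinj : Set.InjOn (fun t : Fin n → ℤ => fun i => e i * t i) (box n L) := by
    intro t _ s _ h
    funext i
    have := congrFun h i
    rcases he i with h1 | h1 <;> simp only [h1] at this <;> omega
  have := hf x ((box n L).image (fun t : Fin n → ℤ => fun i => e i * t i))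
  rw [Finset.sum_image hinj] at this
  exact this

lemma Bs_supp_pos {n : ℕ} (L : ℕ) (e : Fin n → ℤ) (ψ : E n → ℝ)
    (hs : ∀ x, ψ x ≠ 0 → ∀ i, -1 < x i ∧ x i < 2) (i : Fin n) (hi : e i = 1) (m : ℕ) :
    (∀ x, Bs L e ψ m x ≠ 0 → -1 < x i ∧ x i < 2 + m * L) ∧
    (∀ x, Sop L e (Bs L e ψ m) x ≠ 0 → 0 < x i ∧ x i < 2 + (m + 1) * L) := by
  have key : ∀ m : ℕ, (∀ x, Bs L e ψ m x ≠ 0 → -1 < x i ∧ x i < 2 + m * L) →
      (∀ x, Sop L e (Bs L e ψ m) x ≠ 0 → 0 < x i ∧ x i < 2 + (m + 1) * L) := by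
    intro m hm x hx
    unfold Sop at hx
    have h1 := right_ne_zero_of_mul hx
    obtain ⟨t, ht, h2⟩ := Finset.exists_ne_zero_of_sum_ne_zero h1
    have h3 := hm _ h2
    have h' : (x - ivec (fun i => e i * t i)) i = x i - ((e i * t i : ℤ) : ℝ) := rfl
    rw [h', hi] at h3
    have ht' := Finset.mem_Icc.mp ((Fintype.mem_piFinset.mp ht) i)
    have t1 : (1 : ℝ) ≤ (t i : ℝ) := by exact_mod_cast ht'.1
    have t2 : (t i : ℝ) ≤ (L : ℝ) := by exact_mod_cast ht'.2
    push_cast at h3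
    constructor
    · linarith [h3.1]
    · nlinarith [h3.2]
  have base : ∀ m : ℕ, (∀ x, Bs L e ψ m x ≠ 0 → -1 < x i ∧ x i < 2 + m * L) := by
    intro m
    induction m with
    | zero =>
      intro x hx
      have := hs x hx i
      simpa using this
    | succ m ih =>
      intro x hx
      have hL0 : (0 : ℝ) ≤ (L : ℝ) := by positivity
      by_cases h : Bs L e ψ m x = 0
      · have h2 : Sop L e (Bs L e ψ m) x ≠ 0 := by
          intro h3
          apply hx
          change Bs L e ψ m x - Sop L e (Bs L e ψ m) x = 0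
          rw [h, h3]; simp
        have h4 := key m ih x h2
        push_cast
        constructor
        · linarith [h4.1]
        · exact h4.2
      · have h4 := ih x h
        push_cast
        constructor
        · exact h4.1
        · nlinarith [h4.2]
  exact ⟨base m, key m (base m)⟩

lemma Bs_supp_neg {n : ℕ} (L : ℕ) (e : Fin n → ℤ) (ψ : E n → ℝ)
    (hs : ∀ x, ψ x ≠ 0 → ∀ i, -1 < x i ∧ x i < 2) (i : Fin n) (hi : e i = -1) (m : ℕ) :
    (∀ x, Bs L e ψ m x ≠ 0 → -1 - m * L < x i ∧ x i < 2) ∧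
    (∀ x, Sop L e (Bs L e ψ m) x ≠ 0 → -1 - (m + 1) * L < x i ∧ x i < 1) := by
  have key : ∀ m : ℕ, (∀ x, Bs L e ψ m x ≠ 0 → -1 - m * L < x i ∧ x i < 2) →
      (∀ x, Sop L e (Bs L e ψ m) x ≠ 0 → -1 - (m + 1) * L < x i ∧ x i < 1) := by
    intro m hm x hx
    unfold Sop at hx
    have h1 := right_ne_zero_of_mul hx
    obtain ⟨t, ht, h2⟩ := Finset.exists_ne_zero_of_sum_ne_zero h1
    have h3 := hm _ h2
    have h' : (x - ivec (fun i => e i * t i)) i = x i - ((e i * t i : ℤ) : ℝ) := rfl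
    rw [h', hi] at h3
    have ht' := Finset.mem_Icc.mp ((Fintype.mem_piFinset.mp ht) i)
    have t1 : (1 : ℝ) ≤ (t i : ℝ) := by exact_mod_cast ht'.1
    have t2 : (t i : ℝ) ≤ (L : ℝ) := by exact_mod_cast ht'.2
    push_cast at h3
    constructor
    · nlinarith [h3.1]
    · linarith [h3.2]
  have base : ∀ m : ℕ, (∀ x, Bs L e ψ m x ≠ 0 → -1 - m * L < x i ∧ x i < 2) := by
    intro m
    induction m with
    | zero =>
      intro x hx
      have := hs x hx i
      simpa using this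
    | succ m ih =>
      intro x hx
      have hL0 : (0 : ℝ) ≤ (L : ℝ) := by positivity
      by_cases h : Bs L e ψ m x = 0
      · have h2 : Sop L e (Bs L e ψ m) x ≠ 0 := by
          intro h3
          apply hx
          change Bs L e ψ m x - Sop L e (Bs L e ψ m) x = 0
          rw [h, h3]; simp
        have h4 := key m ih x h2
        push_cast
        constructor
        · exact h4.1
        · linarith [h4.2]
      · have h4 := ih x h
        push_cast
        constructor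
        · nlinarith [h4.1]
        · exact h4.2
  exact ⟨base m, key m (base m)⟩

lemma Bs_eq {n : ℕ} (L : ℕ) (e : Fin n → ℤ) (ψ : E n → ℝ) (K : ℕ) (x : E n) :
    Bs L e ψ K x + ∑ m ∈ Finset.range K, Sop L e (Bs L e ψ m) x = ψ x := by
  induction K with
  | zero => simp [Bs]
  | succ K ih =>
    rw [Finset.sum_range_succ, ← ih]
    change Bs L e ψ K x - Sop L e (Bs L e ψ K) x + _ = _
    ring

theorem shape : S_PSI → S_MOM → S_SHAPE := by
  intro hP hM n N hn
  obtain ⟨ψ, hsm, h0, h1, hone, hs⟩ := hP n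
  set K : ℕ := N + 1 with hK
  obtain ⟨c, hc⟩ : ∃ c : ℕ, 4 * K ≤ 2 ^ c := by
    refine ⟨4 * K, ?_⟩
    exact (Nat.lt_two_pow_self).le
  have hc2 : 2 ≤ c := by
    by_contra hcon
    have : 2 ^ c ≤ 2 ^ 1 := Nat.pow_le_pow_right (by norm_num) (by omega)
    omega
  refine ⟨2 ^ K * 3 ^ n * 2 ^ (c * n), by positivity, c + 2, ?_⟩
  intro a ha σ hσ
  set L : ℕ := 2 ^ (a - c) with hLdef
  have hL : 0 < L := by positivity
  have hKL : K * L + 2 ≤ 2 ^ (a - 1) := by
    have e1 : 2 ^ c * L = 2 ^ a := by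
      rw [hLdef, ← pow_add]
      congr 1
      omega
    have e2 : 2 ^ a = 4 * 2 ^ (a - 2) := by
      have : a = (a - 2) + 2 := by omega
      conv_lhs => rw [this]
      rw [pow_add]; ring
    have e3 : 2 ^ (a - 1) = 2 * 2 ^ (a - 2) := by
      have : a - 1 = (a - 2) + 1 := by omega
      rw [this, pow_succ]; ring
    have e4 : 2 ^ 1 ≤ 2 ^ (a - 2) := Nat.pow_le_pow_right (by norm_num) (by omega)
    have e5 : 4 * K * L ≤ 2 ^ c * L := Nat.mul_le_mul_right _ hc
    have e6 : 4 * (K * L) ≤ 4 * 2 ^ (a - 2) := by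
      calc 4 * (K * L) = 4 * K * L := by ring
        _ ≤ 2 ^ c * L := e5
        _ = 4 * 2 ^ (a - 2) := by rw [e1, e2]
    omega
  have hKLr : (K : ℝ) * L + 2 ≤ 2 ^ (a - 1) := by exact_mod_cast hKL
  have h2a : (2 : ℝ) ^ a = 2 * 2 ^ (a - 1) := by
    have : a = (a - 1) + 1 := by omega
    conv_lhs => rw [this]
    rw [pow_succ]; ring
  have h2az : (2 : ℤ) ^ a = 2 * 2 ^ (a - 1) := by
    have : a = (a - 1) + 1 := by omega
    conv_lhs => rw [this]
    rw [pow_succ]; ring
  set e : Fin n → ℤ := fun i => if σ i < 2 ^ (a - 1) then 1 else -1 with he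
  have he1 : ∀ i, e i = 1 ∨ e i = -1 := by
    intro i
    simp only [he]
    split_ifs <;> simp
  have hcs : HasCompactSupport ψ := cs_of_box ψ hs
  have hL0 : (0 : ℝ) < (L : ℝ) := by exact_mod_cast hL
  have hsupη : ∀ x : E n, ∑ m ∈ Finset.range K, Sop L e (Bs L e ψ m) x ≠ 0 →
      ∀ i, -(σ i : ℝ) ≤ x i ∧ x i < (2 : ℝ) ^ a - (σ i : ℝ) := by
    intro x hx i
    obtain ⟨m, hm, h2⟩ := Finset.exists_ne_zero_of_sum_ne_zero hx
    rw [Finset.mem_range] at hm
    have hmK : ((m : ℝ) + 1) * L ≤ K * L := by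
      refine mul_le_mul_of_nonneg_right ?_ hL0.le
      exact_mod_cast hm
    have hσi := hσ i
    have s0 : (0 : ℝ) ≤ (σ i : ℝ) := by exact_mod_cast hσi.1
    by_cases hc1 : σ i < 2 ^ (a - 1)
    · have hei : e i = 1 := by simp only [he]; rw [if_pos hc1]
      have h3 := (Bs_supp_pos L e ψ hs i hei m).2 x h2
      have s1 : (σ i : ℝ) < 2 ^ (a - 1) := by exact_mod_cast hc1
      constructor
      · linarith [h3.1]
      · rw [h2a]; linarith [h3.2]
    · have hei : e i = -1 := by simp only [he]; rw [if_neg hc1]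
      have h3 := (Bs_supp_neg L e ψ hs i hei m).2 x h2
      have s1 : (2 : ℝ) ^ (a - 1) ≤ (σ i : ℝ) := by exact_mod_cast (not_lt.mp hc1)
      have s2 : (σ i : ℝ) + 1 ≤ 2 ^ a := by exact_mod_cast hσi.2
      constructor
      · linarith [h3.1]
      · linarith [h3.2]
  refine ⟨Bs L e ψ K, fun x => ∑ m ∈ Finset.range K, Sop L e (Bs L e ψ m) x, ?_⟩
  constructor
  · exact Bs_smooth L e ψ hsm K
  · intro x hx
    rw [Bs_eq, hone x (fun i => ⟨(hx i).1, (hx i).2.le⟩)]
  · intro x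
    rw [Bs_eq]
    exact h0 x
  · intro x
    have hb : ∀ m ∈ Finset.range K, |Sop L e (Bs L e ψ m) x| ≤
        ((L : ℝ) ^ n)⁻¹ * 3 ^ n * 2 ^ m := by
      intro m _
      have := Sop_small L hL e he1 _ _ (Nb_Bs L hL e ψ _ (Nb_psi ψ h0 h1 hs) m) x
      refine this.trans (le_of_eq ?_)
      ring
    calc |∑ m ∈ Finset.range K, Sop L e (Bs L e ψ m) x|
        ≤ ∑ m ∈ Finset.range K, |Sop L e (Bs L e ψ m) x| := Finset.abs_sum_le_sum_abs _ _
      _ ≤ ∑ m ∈ Finset.range K, ((L : ℝ) ^ n)⁻¹ * 3 ^ n * 2 ^ m := Finset.sum_le_sum hb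
      _ = ((L : ℝ) ^ n)⁻¹ * 3 ^ n * ∑ m ∈ Finset.range K, (2 : ℝ) ^ m := by
          rw [Finset.mul_sum]
      _ ≤ ((L : ℝ) ^ n)⁻¹ * 3 ^ n * 2 ^ K := by
          refine mul_le_mul_of_nonneg_left ?_ (by positivity)
          rw [geom_sum_eq (by norm_num)]
          norm_num
      _ = 2 ^ K * 3 ^ n * 2 ^ (c * n) / ((2 : ℝ) ^ a) ^ n := by
          have hLr : (L : ℝ) * 2 ^ c = 2 ^ a := by
            rw [hLdef]
            push_cast
            rw [← pow_add]
            congr 1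
            omega
          rw [← hLr, mul_pow, pow_mul]
          field_simp
  · exact hsupη
  · intro x hx i
    have hσi := hσ i
    have s0 : (0 : ℝ) ≤ (σ i : ℝ) := by exact_mod_cast hσi.1
    have s2 : (σ i : ℝ) + 1 ≤ 2 ^ a := by exact_mod_cast hσi.2
    by_cases hψ : ψ x = 0
    · have hη : ∑ m ∈ Finset.range K, Sop L e (Bs L e ψ m) x ≠ 0 := by
        intro h
        apply hx
        have := Bs_eq L e ψ K x
        rw [h, hψ] at this
        simpa using this
      have := hsupη x hη i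
      constructor
      · linarith [this.1]
      · linarith [this.2]
    · have := hs x hψ i
      constructor
      · linarith [this.1]
      · linarith [this.2]
  · intro β hβ
    exact Bs_mom hM L hL e ψ hsm hcs K β (by omega)

end

end Pool.Agent.W5.BH
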